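import Pool.Agent.Q98.CD.Main

/-!
# MP_9ae5d9_al: the conjugacy depth of `𝔽_p ≀ ℤ^k` and `ℤ ≀ ℤ^k`

For all `k` the conjugacy depth function of `𝔽_p ≀ ℤ^k` is at most `2 ^ (D n^5)` and that of
`ℤ ≀ ℤ^k` is at most `(n + 1) ^ (D n^5)`. So the expected lower bounds `2 ^ (n^k)` and
`log(n) ^ (n^k)` fail for all `k ≥ 6`: both questions have a negative answer.
-/

set_option autoImplicit false

namespace Pool.Agent.Results.MP_9ae5d9_al.PolynomialExponent

open Function Pool.Agent.Q98.CD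

/-- `D_G(g,h)`: the least order of a finite quotient of `G` in which the images of `g` and `h` are
not conjugate (infinity if there is none) -/
noncomputable def Depth (G : Type) [Group G] (g h : G) : ℕ∞ :=
  ⨅ (Q : Type) (_ : Group Q) (_ : Finite Q) (φ : G →* Q) (_ : Surjective φ)
    (_ : ¬ IsConj (φ g) (φ h)), (Nat.card Q : ℕ∞)

/-- `Conj_G(n)`: the supremum of `D_G(g,h)` over the non-conjugate `g, h` of word length at most
`n` with respect to `S` -/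
noncomputable def ConjDepth (G : Type) [Group G] (S : Set G) (n : ℕ) : ℕ∞ :=
  ⨆ (g ∈ Ball S n) (h ∈ Ball S n) (_ : ¬ IsConj g h), Depth G g h

lemma depth_le {k : ℕ} {R : Type} [AddCommGroup R] (ν : Size R) {R' : Type} [AddCommGroup R']
    [Finite R'] (ρ : R →+ R') {N : ℕ} (hN : 1 ≤ N) (hρ : ∀ r, ν.nu r ≤ 2 * N → ρ r = 0 → r = 0)
    {S : Set (Wr R (Fin k → ℤ))} {n : ℕ} (hS : ∀ g ∈ Ball S n, Bd ν N g) :
    ConjDepth (Wr R (Fin k → ℤ)) S n ≤
      ((Nat.card R' ^ (48 * (k + 1) * N ^ 5) * (48 * (k + 1) * N ^ 5) : ℕ) : ℕ∞) := by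
  refine iSup₂_le fun g hg => iSup₂_le fun h hh => iSup_le fun hn => ?_
  obtain ⟨Q, i1, i2, φ, h1, h2, h3⟩ := separate ν ρ hN hρ (hS g hg) (hS h hh) hn
  refine le_trans ?_ (Nat.cast_le.2 h3)
  exact iInf_le_of_le Q (iInf_le_of_le i1 (iInf_le_of_le i2 (iInf_le_of_le φ
    (iInf_le_of_le h1 (iInf_le_of_le h2 le_rfl)))))

/-- the size function of a group without further structure -/
noncomputable def sizeOne (R : Type) [AddCommGroup R] : Size R := by
  classical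
  exact
  { nu := fun r => if r = 0 then 0 else 1
    zero := by simp
    eq_zero := fun r h => by
      by_contra h0
      rw [if_neg h0] at h
      omega
    neg := fun r => by simp
    add := fun r s => by
      by_cases hr : r = 0
      · rw [hr]; simp
      · rw [if_neg hr]
        split_ifs <;> omega }

/-- the size function of the integers -/
def sizeInt : Size ℤ where
  nu := Int.natAbs
  zero := rfl
  eq_zero := fun r h => Int.natAbs_eq_zero.1 h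
  neg := fun r => Int.natAbs_neg r
  add := fun r s => Int.natAbs_add_le r s

theorem upper_p (p : ℕ) [Fact p.Prime] (k : ℕ) (S : Set (Wr (ZMod p) (Fin k → ℤ)))
    (hS : S.Finite) : ∃ D : ℕ, ∀ n, 1 ≤ n →
      ConjDepth (Wr (ZMod p) (Fin k → ℤ)) S n ≤ ((2 ^ (D * n ^ 5) : ℕ) : ℕ∞) := by
  obtain ⟨c, hc, h⟩ := exists_ball (sizeOne (ZMod p)) S hS
  refine ⟨(p + 1) * (48 * (k + 1) * c ^ 5), fun n hn => ?_⟩
  have h1 := depth_le (sizeOne (ZMod p)) (AddMonoidHom.id (ZMod p)) (N := c * n)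
    (Nat.mul_pos hc hn) (fun r _ hr => hr) (h n)
  refine h1.trans (Nat.cast_le.2 ?_)
  rw [Nat.card_zmod]
  set L := 48 * (k + 1) * (c * n) ^ 5 with hL
  have e1 : p ^ L ≤ (2 ^ p) ^ L := Nat.pow_le_pow_left Nat.lt_two_pow_self.le L
  calc p ^ L * L ≤ (2 ^ p) ^ L * 2 ^ L := Nat.mul_le_mul e1 Nat.lt_two_pow_self.le
    _ = 2 ^ ((p + 1) * L) := by rw [← pow_mul, ← pow_add]; congr 1; ring
    _ = 2 ^ ((p + 1) * (48 * (k + 1) * c ^ 5) * n ^ 5) := by rw [hL]; congr 1; ring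

theorem upper_int (k : ℕ) (S : Set (Wr ℤ (Fin k → ℤ))) (hS : S.Finite) :
    ∃ D : ℕ, ∀ n, 1 ≤ n →
      ConjDepth (Wr ℤ (Fin k → ℤ)) S n ≤ (((n + 1) ^ (D * n ^ 5) : ℕ) : ℕ∞) := by
  obtain ⟨c, hc, h⟩ := exists_ball sizeInt S hS
  refine ⟨(2 * c + 2) * (48 * (k + 1) * c ^ 5), fun n hn => ?_⟩
  haveI : NeZero (2 * (c * n) + 1) := ⟨by omega⟩
  have h1 := depth_le sizeInt (R' := ZMod (2 * (c * n) + 1))
    (Int.castAddHom (ZMod (2 * (c * n) + 1))) (N := c * n)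
    (Nat.mul_pos hc hn) (fun r hr h0 => by
      have h2 : (((2 * (c * n) + 1 : ℕ) : ℤ)) ∣ r := (ZMod.intCast_zmod_eq_zero_iff_dvd _ _).1 h0
      by_contra hne
      have h3 := Nat.le_of_dvd (Int.natAbs_pos.2 hne) (Int.natCast_dvd.1 h2)
      have h4 : r.natAbs ≤ 2 * (c * n) := hr
      omega) (h n)
  refine h1.trans (Nat.cast_le.2 ?_)
  rw [Nat.card_zmod]
  set L := 48 * (k + 1) * (c * n) ^ 5 with hL
  have e0 : 2 * (c * n) + 1 ≤ (n + 1) ^ (2 * c + 1) := by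
    have e1 : 2 * c ≤ (n + 1) ^ (2 * c) :=
      Nat.lt_two_pow_self.le.trans (Nat.pow_le_pow_left (by omega) _)
    calc 2 * (c * n) + 1 ≤ 2 * c * (n + 1) := by nlinarith
      _ ≤ (n + 1) ^ (2 * c) * (n + 1) := Nat.mul_le_mul_right _ e1
      _ = (n + 1) ^ (2 * c + 1) := (pow_succ _ _).symm
  have e1 : (2 * (c * n) + 1) ^ L ≤ ((n + 1) ^ (2 * c + 1)) ^ L := Nat.pow_le_pow_left e0 L
  have e2 : L ≤ (n + 1) ^ L :=
    Nat.lt_two_pow_self.le.trans (Nat.pow_le_pow_left (by omega) _)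
  calc (2 * (c * n) + 1) ^ L * L ≤ ((n + 1) ^ (2 * c + 1)) ^ L * (n + 1) ^ L :=
        Nat.mul_le_mul e1 e2
    _ = (n + 1) ^ ((2 * c + 2) * L) := by rw [← pow_mul, ← pow_add]; congr 1; ring
    _ = (n + 1) ^ ((2 * c + 2) * (48 * (k + 1) * c ^ 5) * n ^ 5) := by rw [hL]; congr 1; ring

lemma pow_k_ge {n k : ℕ} (hn : 1 ≤ n) (hk : 6 ≤ k) : n * n ^ 5 ≤ n ^ k := by
  calc n * n ^ 5 = n ^ 6 := by ring
    _ ≤ n ^ k := Nat.pow_le_pow_right hn hk

/-- The conjugacy depth function `ConjDepth G S` is taken with respect to any finite subset `S` of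
`G` (in particular for finite generating sets). (1), (2) Upper bounds for all `k`. (3), (4) The
negated forms of Q1 and Q2, for all primes `p` and all `k ≥ 6`. -/
theorem result :
    (∀ (p : ℕ) [Fact p.Prime] (k : ℕ) (S : Set (Wr (ZMod p) (Fin k → ℤ))), S.Finite →
      ∃ D : ℕ, ∀ n, 1 ≤ n →
        ConjDepth (Wr (ZMod p) (Fin k → ℤ)) S n ≤ ((2 ^ (D * n ^ 5) : ℕ) : ℕ∞)) ∧
    (∀ (k : ℕ) (S : Set (Wr ℤ (Fin k → ℤ))), S.Finite →
      ∃ D : ℕ, ∀ n, 1 ≤ n →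
        ConjDepth (Wr ℤ (Fin k → ℤ)) S n ≤ (((n + 1) ^ (D * n ^ 5) : ℕ) : ℕ∞)) ∧
    (∀ (p : ℕ) [Fact p.Prime] (k : ℕ), 6 ≤ k → ∀ S : Set (Wr (ZMod p) (Fin k → ℤ)), S.Finite →
      ∀ C : ℕ, ∃ n : ℕ,
        (C : ℕ∞) * ConjDepth (Wr (ZMod p) (Fin k → ℤ)) S (C * n) < ((2 ^ (n ^ k) : ℕ) : ℕ∞)) ∧
    (∀ k : ℕ, 6 ≤ k → ∀ S : Set (Wr ℤ (Fin k → ℤ)), S.Finite →
      ∀ C : ℕ, ∃ n m : ℕ,
        (C : ℕ∞) * ConjDepth (Wr ℤ (Fin k → ℤ)) S (C * n) ≤ (m : ℕ∞) ∧
        (m : ℝ) < Real.log n ^ (n ^ k)) := by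
  refine ⟨fun p _ k S hS => upper_p p k S hS, fun k S hS => upper_int k S hS, ?_, ?_⟩
  · intro p _ k hk S hS C
    obtain ⟨D, hD⟩ := upper_p p k S hS
    rcases Nat.eq_zero_or_pos C with rfl | hC
    · refine ⟨1, ?_⟩
      rw [Nat.cast_zero, zero_mul]
      exact_mod_cast Nat.two_pow_pos _
    set n := C + D * C ^ 5 + 1 with hn
    refine ⟨n, lt_of_le_of_lt (mul_le_mul_right (hD (C * n) (Nat.mul_pos hC (by omega))) _) ?_⟩
    rw [← Nat.cast_mul, Nat.cast_lt]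
    calc C * 2 ^ (D * (C * n) ^ 5) ≤ 2 ^ C * 2 ^ (D * (C * n) ^ 5) :=
          Nat.mul_le_mul_right _ Nat.lt_two_pow_self.le
      _ = 2 ^ (C + D * (C * n) ^ 5) := (pow_add _ _ _).symm
      _ < 2 ^ (n ^ k) := by
        apply Nat.pow_lt_pow_right (by norm_num)
        refine lt_of_lt_of_le ?_ (pow_k_ge (by omega) hk)
        have h1 : 1 ≤ n ^ 5 := Nat.one_le_pow _ _ (by omega)
        calc C + D * (C * n) ^ 5 = C + D * C ^ 5 * n ^ 5 := by ring
          _ ≤ C * n ^ 5 + D * C ^ 5 * n ^ 5 := by nlinarith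
          _ < (C + D * C ^ 5 + 1) * n ^ 5 := by nlinarith
          _ = n * n ^ 5 := by rw [← hn]
  · intro k hk S hS C
    obtain ⟨D, hD⟩ := upper_int k S hS
    rcases Nat.eq_zero_or_pos C with rfl | hC
    · refine ⟨3, 0, ?_, ?_⟩
      · rw [Nat.cast_zero, zero_mul]
      · rw [Nat.cast_zero]
        exact pow_pos (Real.log_pos (by norm_num)) _
    -- `n = 2^t` with `C + D C^5 (C + t) < 2^t`
    obtain ⟨t, ht4, ht⟩ : ∃ t : ℕ, 4 ≤ t ∧ C + D * C ^ 5 * (C + t) < 2 ^ t := by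
      set A := C + D * C ^ 5 * C
      set B := D * C ^ 5
      set s := A + 2 * B + 2
      refine ⟨2 * s, by omega, ?_⟩
      have h1 : s + 1 ≤ 2 ^ s := Nat.lt_two_pow_self
      calc C + B * (C + 2 * s) = A + B * (2 * s) := by ring
        _ < (s + 1) * (s + 1) := by
          have h2 : 2 * B ≤ s := by omega
          have h3 : 2 * B * s ≤ s * s := Nat.mul_le_mul_right s h2
          have h4 : A ≤ s := by omega
          linarith
        _ ≤ 2 ^ s * 2 ^ s := Nat.mul_le_mul h1 h1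
        _ = 2 ^ (2 * s) := by rw [← pow_add]; congr 1; ring
    set n := 2 ^ t with hn
    have hn1 : 1 ≤ n := Nat.one_le_two_pow
    refine ⟨n, C * (C * n + 1) ^ (D * (C * n) ^ 5), ?_, ?_⟩
    · rw [Nat.cast_mul]
      exact mul_le_mul_right (hD (C * n) (Nat.mul_pos hC hn1)) _
    · have h1 : C * (C * n + 1) ^ (D * (C * n) ^ 5) < 2 ^ (n ^ k) := by
        have e0 : C * n + 1 ≤ 2 ^ (C + t) := by
          rw [pow_add, ← hn]
          have : C + 1 ≤ 2 ^ C := Nat.lt_two_pow_self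
          nlinarith
        calc C * (C * n + 1) ^ (D * (C * n) ^ 5)
            ≤ 2 ^ C * (2 ^ (C + t)) ^ (D * (C * n) ^ 5) :=
              Nat.mul_le_mul Nat.lt_two_pow_self.le (Nat.pow_le_pow_left e0 _)
          _ = 2 ^ (C + (C + t) * (D * (C * n) ^ 5)) := by rw [← pow_mul, ← pow_add]
          _ < 2 ^ (n ^ k) := by
            apply Nat.pow_lt_pow_right (by norm_num)
            refine lt_of_lt_of_le ?_ (pow_k_ge hn1 hk)
            have h1 : 1 ≤ n ^ 5 := Nat.one_le_pow _ _ hn1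
            calc C + (C + t) * (D * (C * n) ^ 5) = C + D * C ^ 5 * (C + t) * n ^ 5 := by ring
              _ ≤ (C + D * C ^ 5 * (C + t)) * n ^ 5 := by nlinarith
              _ < n * n ^ 5 := Nat.mul_lt_mul_of_pos_right ht (by omega)
      have h2 : (2 : ℝ) ≤ Real.log n := by
        rw [hn, Nat.cast_pow, Real.log_pow, Nat.cast_ofNat]
        have h3 := Real.log_two_gt_d9
        have h4 : (4 : ℝ) ≤ t := by exact_mod_cast ht4
        nlinarith
      calc ((C * (C * n + 1) ^ (D * (C * n) ^ 5) : ℕ) : ℝ) < ((2 ^ (n ^ k) : ℕ) : ℝ) := by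
            exact_mod_cast h1
        _ = (2 : ℝ) ^ (n ^ k) := by push_cast; ring
        _ ≤ Real.log n ^ (n ^ k) := pow_le_pow_left₀ (by norm_num) h2 _

end Pool.Agent.Results.MP_9ae5d9_al.PolynomialExponent
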